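import Mathlib

/-!
Covers of balls by cosets: replacing every point of a (small) Schreier graph by a path.

Positions are pairs `(x, i)` with `x` a macro point and `0 ≤ i ≤ 2 e` a position on the path over
`x`. Generators of the first kind act by a macro permutation at the end `i = 0` and exchange the
positions `1, 2`, then `3, 4`, and so on; generators of the second kind act by a macro permutation
at the end `i = 2 e` and exchange `0, 1`, then `2, 3`, and so on.
-/

set_option autoImplicit false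

namespace Pool.Agent.H12.Cov

/-- A generator of the first kind. -/
def tm (f : ℕ → ℕ) (e : ℕ) (p : ℕ × ℕ) : ℕ × ℕ :=
  if p.2 = 0 then (f p.1, 0)
  else if p.2 ≤ 2 * e then (p.1, if p.2 % 2 = 1 then p.2 + 1 else p.2 - 1) else p

/-- A generator of the second kind. -/
def bm (f : ℕ → ℕ) (e : ℕ) (p : ℕ × ℕ) : ℕ × ℕ :=
  if p.2 = 2 * e then (f p.1, p.2)
  else if p.2 < 2 * e then (p.1, if p.2 % 2 = 0 then p.2 + 1 else p.2 - 1) else p

theorem tm_zero (f : ℕ → ℕ) (e x : ℕ) : tm f e (x, 0) = (f x, 0) := by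
  simp [tm]

theorem tm_odd (f : ℕ → ℕ) (e x i : ℕ) (h1 : i % 2 = 1) (h2 : i ≤ 2 * e) :
    tm f e (x, i) = (x, i + 1) := by
  have h3 : i ≠ 0 := by omega
  simp [tm, h3, h2, h1]

theorem tm_even (f : ℕ → ℕ) (e x i : ℕ) (h1 : i % 2 = 0) (h0 : i ≠ 0) (h2 : i ≤ 2 * e) :
    tm f e (x, i) = (x, i - 1) := by
  simp [tm, h0, h2, h1]

theorem tm_big (f : ℕ → ℕ) (e x i : ℕ) (h2 : 2 * e < i) : tm f e (x, i) = (x, i) := by
  have h3 : i ≠ 0 := by omega
  have h4 : ¬ i ≤ 2 * e := by omega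
  simp [tm, h3, h4]

theorem bm_end (f : ℕ → ℕ) (e x : ℕ) : bm f e (x, 2 * e) = (f x, 2 * e) := by
  simp [bm]

theorem bm_even (f : ℕ → ℕ) (e x i : ℕ) (h1 : i % 2 = 0) (h2 : i < 2 * e) :
    bm f e (x, i) = (x, i + 1) := by
  have h3 : i ≠ 2 * e := by omega
  simp [bm, h3, h2, h1]

theorem bm_odd (f : ℕ → ℕ) (e x i : ℕ) (h1 : i % 2 = 1) (h2 : i < 2 * e) :
    bm f e (x, i) = (x, i - 1) := by
  have h3 : i ≠ 2 * e := by omega
  simp [bm, h3, h2, h1]

theorem bm_big (f : ℕ → ℕ) (e x i : ℕ) (h2 : 2 * e < i) : bm f e (x, i) = (x, i) := by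
  have h3 : i ≠ 2 * e := by omega
  have h4 : ¬ i < 2 * e := by omega
  simp [bm, h3, h4]

theorem tm_tm (f g : ℕ → ℕ) (h : ∀ x, g (f x) = x) (e : ℕ) (p : ℕ × ℕ) :
    tm g e (tm f e p) = p := by
  obtain ⟨x, i⟩ := p
  rcases Nat.eq_zero_or_pos i with h0 | h0
  · subst h0
    rw [tm_zero, tm_zero, h]
  · by_cases h1 : i ≤ 2 * e
    · rcases Nat.mod_two_eq_zero_or_one i with h2 | h2
      · rw [tm_even f e x i h2 (by omega) h1, tm_odd g e x (i - 1) (by omega) (by omega)]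
        congr 1
        omega
      · rw [tm_odd f e x i h2 h1, tm_even g e x (i + 1) (by omega) (by omega) (by omega)]
        congr 1
    · rw [tm_big f e x i (by omega), tm_big g e x i (by omega)]

theorem bm_bm (f g : ℕ → ℕ) (h : ∀ x, g (f x) = x) (e : ℕ) (p : ℕ × ℕ) :
    bm g e (bm f e p) = p := by
  obtain ⟨x, i⟩ := p
  by_cases h0 : i = 2 * e
  · subst h0
    rw [bm_end, bm_end, h]
  · by_cases h1 : i < 2 * e
    · rcases Nat.mod_two_eq_zero_or_one i with h2 | h2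
      · rw [bm_even f e x i h2 h1, bm_odd g e x (i + 1) (by omega) (by omega)]
        congr 1
      · rw [bm_odd f e x i h2 h1, bm_even g e x (i - 1) (by omega) (by omega)]
        congr 1
        omega
    · rw [bm_big f e x i (by omega), bm_big g e x i (by omega)]

/-- Generators of the first kind as permutations. -/
def tP (e : ℕ) (s : Equiv.Perm ℕ) : Equiv.Perm (ℕ × ℕ) where
  toFun := tm s e
  invFun := tm s.symm e
  left_inv := tm_tm _ _ (fun x => s.symm_apply_apply x) e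
  right_inv := tm_tm _ _ (fun x => s.apply_symm_apply x) e

/-- Generators of the second kind as permutations. -/
def bP (e : ℕ) (s : Equiv.Perm ℕ) : Equiv.Perm (ℕ × ℕ) where
  toFun := bm s e
  invFun := bm s.symm e
  left_inv := bm_bm _ _ (fun x => s.symm_apply_apply x) e
  right_inv := bm_bm _ _ (fun x => s.apply_symm_apply x) e

theorem tP_apply (e : ℕ) (s : Equiv.Perm ℕ) (p : ℕ × ℕ) : tP e s p = tm s e p := rfl

theorem bP_apply (e : ℕ) (s : Equiv.Perm ℕ) (p : ℕ × ℕ) : bP e s p = bm s e p := rfl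

theorem tP_inv (e : ℕ) (s : Equiv.Perm ℕ) : (tP e s)⁻¹ = tP e s⁻¹ := rfl

theorem bP_inv (e : ℕ) (s : Equiv.Perm ℕ) : (bP e s)⁻¹ = bP e s⁻¹ := rfl

/-- A product of two generators of the second kind. -/
def nm (f : ℕ → ℕ) (e : ℕ) (p : ℕ × ℕ) : ℕ × ℕ :=
  if p.2 = 2 * e then (f p.1, p.2) else p

theorem nm_end (f : ℕ → ℕ) (e x : ℕ) : nm f e (x, 2 * e) = (f x, 2 * e) := by
  simp [nm]

theorem nm_ne (f : ℕ → ℕ) (e x i : ℕ) (h : i ≠ 2 * e) : nm f e (x, i) = (x, i) := by
  simp [nm, h]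

theorem bm_bm_eq (f g : ℕ → ℕ) (e : ℕ) (p : ℕ × ℕ) :
    bm f e (bm g e p) = nm (fun x => f (g x)) e p := by
  obtain ⟨x, i⟩ := p
  by_cases h0 : i = 2 * e
  · subst h0
    rw [bm_end, bm_end, nm_end]
  · rw [nm_ne _ e x i h0]
    by_cases h1 : i < 2 * e
    · rcases Nat.mod_two_eq_zero_or_one i with h2 | h2
      · rw [bm_even g e x i h2 h1, bm_odd f e x (i + 1) (by omega) (by omega)]
        congr 1
      · rw [bm_odd g e x i h2 h1, bm_even f e x (i - 1) (by omega) (by omega)]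
        congr 1
        omega
    · rw [bm_big g e x i (by omega), bm_big f e x i (by omega)]

/-- The invariant of the walk: after `n` letters the walker is on the path over a macro point in
`R m`, and `n` is at least the number of steps needed. -/
def Inv (κ : Type) (e : ℕ) (R : ℕ → Set (κ → ℕ)) (n : ℕ) (F : κ → ℕ × ℕ) : Prop :=
  ∃ (m : ℕ) (X : κ → ℕ) (i : ℕ), X ∈ R m ∧ i ≤ 2 * e ∧ (∀ c, F c = (X c, i)) ∧
    (2 * e + 1) * m + (if m % 2 = 0 then 2 * e - i else i) ≤ n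

/-- One step of a generator of the first kind. -/
theorem inv_t {κ : Type} (e : ℕ) (R : ℕ → Set (κ → ℕ)) (s : κ → Equiv.Perm ℕ)
    (h0 : ∀ m X, m % 2 = 0 → X ∈ R m → (fun c => s c (X c)) ∈ R (m + 1))
    (h1 : ∀ m X, m % 2 = 1 → X ∈ R m → (fun c => s c (X c)) ∈ R (m - 1) ∨
      (fun c => s c (X c)) ∈ R m)
    (n : ℕ) (F : κ → ℕ × ℕ) (h : Inv κ e R n F) :
    Inv κ e R (n + 1) (fun c => tP e (s c) (F c)) := by
  obtain ⟨m, X, i, hX, hi, hF, hn⟩ := h
  rcases Nat.eq_zero_or_pos i with hi0 | hi0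
  · subst hi0
    rcases Nat.mod_two_eq_zero_or_one m with hm | hm
    · refine ⟨m + 1, _, 0, h0 m X hm hX, Nat.zero_le _, fun c => ?_, ?_⟩
      · change tP e (s c) (F c) = _
        rw [hF c, tP_apply, tm_zero]
      · rw [if_pos hm] at hn
        rw [if_neg (by omega)]
        have : (2 * e + 1) * (m + 1) = (2 * e + 1) * m + 2 * e + 1 := by ring
        omega
    · rw [if_neg (by omega)] at hn
      rcases h1 m X hm hX with h2 | h2
      · refine ⟨m - 1, _, 0, h2, Nat.zero_le _, fun c => ?_, ?_⟩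
        · change tP e (s c) (F c) = _
          rw [hF c, tP_apply, tm_zero]
        · rw [if_pos (by omega)]
          obtain ⟨q, rfl⟩ : ∃ q, m = q + 1 := ⟨m - 1, by omega⟩
          have : (2 * e + 1) * (q + 1) = (2 * e + 1) * q + 2 * e + 1 := by ring
          rw [Nat.add_sub_cancel]
          omega
      · refine ⟨m, _, 0, h2, Nat.zero_le _, fun c => ?_, ?_⟩
        · change tP e (s c) (F c) = _
          rw [hF c, tP_apply, tm_zero]
        · rw [if_neg (by omega)]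
          omega
  · rcases Nat.mod_two_eq_zero_or_one i with hi2 | hi2
    · refine ⟨m, X, i - 1, hX, by omega, fun c => ?_, ?_⟩
      · change tP e (s c) (F c) = _
        rw [hF c, tP_apply, tm_even _ e _ i hi2 (by omega) hi]
      · split_ifs at hn ⊢ with h3 <;> omega
    · refine ⟨m, X, i + 1, hX, by omega, fun c => ?_, ?_⟩
      · change tP e (s c) (F c) = _
        rw [hF c, tP_apply, tm_odd _ e _ i hi2 hi]
      · split_ifs at hn ⊢ with h3 <;> omega

/-- One step of a generator of the second kind. -/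
theorem inv_b {κ : Type} (e : ℕ) (R : ℕ → Set (κ → ℕ)) (s : κ → Equiv.Perm ℕ)
    (h0 : ∀ m X, m % 2 = 0 → X ∈ R m → (fun c => s c (X c)) ∈ R m)
    (h1 : ∀ m X, m % 2 = 1 → X ∈ R m → (fun c => s c (X c)) ∈ R (m + 1))
    (n : ℕ) (F : κ → ℕ × ℕ) (h : Inv κ e R n F) :
    Inv κ e R (n + 1) (fun c => bP e (s c) (F c)) := by
  obtain ⟨m, X, i, hX, hi, hF, hn⟩ := h
  by_cases hi0 : i = 2 * e
  · subst hi0
    rcases Nat.mod_two_eq_zero_or_one m with hm | hm
    · refine ⟨m, _, 2 * e, h0 m X hm hX, le_rfl, fun c => ?_, ?_⟩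
      · change bP e (s c) (F c) = _
        rw [hF c, bP_apply, bm_end]
      · rw [if_pos hm] at hn ⊢
        omega
    · rw [if_neg (by omega)] at hn
      refine ⟨m + 1, _, 2 * e, h1 m X hm hX, le_rfl, fun c => ?_, ?_⟩
      · change bP e (s c) (F c) = _
        rw [hF c, bP_apply, bm_end]
      · rw [if_pos (by omega)]
        have : (2 * e + 1) * (m + 1) = (2 * e + 1) * m + 2 * e + 1 := by ring
        omega
  · rcases Nat.mod_two_eq_zero_or_one i with hi2 | hi2
    · refine ⟨m, X, i + 1, hX, by omega, fun c => ?_, ?_⟩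
      · change bP e (s c) (F c) = _
        rw [hF c, bP_apply, bm_even _ e _ i hi2 (by omega)]
      · split_ifs at hn ⊢ with h3 <;> omega
    · refine ⟨m, X, i - 1, hX, by omega, fun c => ?_, ?_⟩
      · change bP e (s c) (F c) = _
        rw [hF c, bP_apply, bm_odd _ e _ i hi2 (by omega)]
      · split_ifs at hn ⊢ with h3 <;> omega

/-- One step of a product of two generators of the second kind. -/
theorem inv_n {κ : Type} (e : ℕ) (R : ℕ → Set (κ → ℕ)) (s : κ → ℕ → ℕ)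
    (h0 : ∀ m X, m % 2 = 0 → X ∈ R m → (fun c => s c (X c)) ∈ R m)
    (h1 : ∀ m X, m % 2 = 1 → X ∈ R m → (fun c => s c (X c)) ∈ R (m + 1))
    (n : ℕ) (F : κ → ℕ × ℕ) (h : Inv κ e R n F) :
    Inv κ e R (n + 1) (fun c => nm (s c) e (F c)) := by
  obtain ⟨m, X, i, hX, hi, hF, hn⟩ := h
  by_cases hi0 : i = 2 * e
  · subst hi0
    rcases Nat.mod_two_eq_zero_or_one m with hm | hm
    · refine ⟨m, _, 2 * e, h0 m X hm hX, le_rfl, fun c => ?_, ?_⟩
      · change nm (s c) e (F c) = _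
        rw [hF c, nm_end]
      · rw [if_pos hm] at hn ⊢
        omega
    · rw [if_neg (by omega)] at hn
      refine ⟨m + 1, _, 2 * e, h1 m X hm hX, le_rfl, fun c => ?_, ?_⟩
      · change nm (s c) e (F c) = _
        rw [hF c, nm_end]
      · rw [if_pos (by omega)]
        have : (2 * e + 1) * (m + 1) = (2 * e + 1) * m + 2 * e + 1 := by ring
        omega
  · refine ⟨m, X, i, hX, hi, fun c => ?_, by omega⟩
    change nm (s c) e (F c) = _
    rw [hF c, nm_ne _ e _ i hi0]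

theorem inv_id {κ : Type} (e : ℕ) (R : ℕ → Set (κ → ℕ)) (n : ℕ) (F : κ → ℕ × ℕ)
    (h : Inv κ e R n F) : Inv κ e R (n + 1) F := by
  obtain ⟨m, X, i, hX, hi, hF, hn⟩ := h
  exact ⟨m, X, i, hX, hi, hF, by omega⟩

/-- The invariant holds for all words. -/
theorem inv_word {G : Type*} [Group G] {κ : Type} (e : ℕ) (R : ℕ → Set (κ → ℕ)) (X0 : κ → ℕ)
    (hX0 : X0 ∈ R 0) (ρ : κ → G →* Equiv.Perm (ℕ × ℕ)) (W : Set G)
    (hW : ∀ x ∈ W,
      (∃ s : κ → Equiv.Perm ℕ, (∀ c, ρ c x = tP e (s c)) ∧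
        (∀ m X, m % 2 = 0 → X ∈ R m → (fun c => s c (X c)) ∈ R (m + 1)) ∧
        (∀ m X, m % 2 = 1 → X ∈ R m → (fun c => s c (X c)) ∈ R (m - 1) ∨
          (fun c => s c (X c)) ∈ R m)) ∨
      (∃ s : κ → Equiv.Perm ℕ, (∀ c, ρ c x = bP e (s c)) ∧
        (∀ m X, m % 2 = 0 → X ∈ R m → (fun c => s c (X c)) ∈ R m) ∧
        (∀ m X, m % 2 = 1 → X ∈ R m → (fun c => s c (X c)) ∈ R (m + 1))) ∨
      (∃ s : κ → ℕ → ℕ, (∀ c p, ρ c x p = nm (s c) e p) ∧
        (∀ m X, m % 2 = 0 → X ∈ R m → (fun c => s c (X c)) ∈ R m) ∧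
        (∀ m X, m % 2 = 1 → X ∈ R m → (fun c => s c (X c)) ∈ R (m + 1))) ∨
      (∀ c, ρ c x = 1)) :
    ∀ l : List G, (∀ x ∈ l, x ∈ W) → Inv κ e R l.length (fun c => ρ c l.prod (X0 c, 2 * e)) := by
  intro l
  induction l with
  | nil =>
    intro _
    refine ⟨0, X0, 2 * e, hX0, le_rfl, fun c => by simp, by simp⟩
  | cons x l ih =>
    intro hl
    have h1 := ih (fun y hy => hl y (List.mem_cons_of_mem _ hy))
    have h2 : (fun c => ρ c (x :: l).prod (X0 c, 2 * e)) =
        fun c => ρ c x (ρ c l.prod (X0 c, 2 * e)) := by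
      funext c
      rw [List.prod_cons, map_mul, Equiv.Perm.mul_apply]
    rw [h2, List.length_cons]
    rcases hW x (hl x (by simp)) with ⟨s, hs, ha, hb⟩ | ⟨s, hs, ha, hb⟩ | ⟨s, hs, ha, hb⟩ | hs
    · have h3 := inv_t e R s ha hb _ _ h1
      simpa only [hs] using h3
    · have h3 := inv_b e R s ha hb _ _ h1
      simpa only [hs] using h3
    · have h3 := inv_n e R s ha hb _ _ h1
      simpa only [hs] using h3
    · have h3 := inv_id e R _ _ h1
      simpa only [hs, Equiv.Perm.one_apply] using h3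

/-- If all states met before macro time `D` are covered by `q` macro targets, then all words of
length less than `D (2 e + 1)` are covered by `q (2 e + 1)` points. -/
theorem cover_word {G : Type*} [Group G] {κ : Type} (e D q : ℕ) (R : ℕ → Set (κ → ℕ))
    (X0 : κ → ℕ) (ρ : κ → G →* Equiv.Perm (ℕ × ℕ)) (l : List G)
    (h : Inv κ e R l.length (fun c => ρ c l.prod (X0 c, 2 * e)))
    (T : Fin q → κ × ℕ) (hT : ∀ m < D, ∀ X ∈ R m, ∃ j, X (T j).1 = (T j).2)
    (hl : l.length < D * (2 * e + 1)) :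
    ∃ (j : Fin q) (i : Fin (2 * e + 1)), ρ (T j).1 l.prod (X0 (T j).1, 2 * e) = ((T j).2, (i : ℕ)) := by
  obtain ⟨m, X, i, hX, hi, hF, hn⟩ := h
  have hm : m < D := by
    by_contra hcon
    push Not at hcon
    have : D * (2 * e + 1) ≤ (2 * e + 1) * m := by
      rw [mul_comm]
      exact Nat.mul_le_mul_left _ hcon
    omega
  obtain ⟨j, hj⟩ := hT m hm X hX
  refine ⟨j, ⟨i, by omega⟩, ?_⟩
  have h1 := hF (T j).1
  simp only at h1
  rw [h1, hj]

/-- From points of infinite orbits to cosets of subgroups of infinite index. -/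
theorem cosets {G : Type*} [Group G] {κ ι Ω : Type*} (ρ : κ → G →* Equiv.Perm Ω) (x0 : κ → Ω)
    (hinf : ∀ c, (Set.range fun g => ρ c g (x0 c)).Infinite) (P : ι → κ × Ω) :
    ∃ (K : κ → Subgroup G) (g : ι → G), (∀ c, (K c).index = 0) ∧
      ∀ (i : ι) (u : G), ρ (P i).1 u (x0 (P i).1) = (P i).2 → (g i)⁻¹ * u ∈ K (P i).1 := by
  classical
  refine ⟨fun c => { carrier := {g | ρ c g (x0 c) = x0 c}
                     mul_mem' := ?_, one_mem' := ?_, inv_mem' := ?_ },
    fun i => if h : ∃ u : G, ρ (P i).1 u (x0 (P i).1) = (P i).2 then h.choose else 1, ?_, ?_⟩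
  · intro a b ha hb
    simp only [Set.mem_ofPred_eq] at ha hb ⊢
    rw [map_mul, Equiv.Perm.mul_apply, hb, ha]
  · simp
  · intro a ha
    simp only [Set.mem_ofPred_eq] at ha ⊢
    rw [map_inv, Equiv.Perm.inv_eq_iff_eq, ha]
  · intro c
    rw [Subgroup.index]
    rw [Nat.card_eq_zero]
    right
    set Kc : Subgroup G := { carrier := {g | ρ c g (x0 c) = x0 c}
                             mul_mem' := _, one_mem' := _, inv_mem' := _ } with hKc
    let φ : G ⧸ Kc → Ω := fun z => Quotient.liftOn' z (fun g => ρ c g (x0 c)) (by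
      intro a b hab
      rw [QuotientGroup.leftRel_apply] at hab
      have h1 : ρ c (a⁻¹ * b) (x0 c) = x0 c := hab
      rw [map_mul, Equiv.Perm.mul_apply, map_inv, Equiv.Perm.inv_eq_iff_eq] at h1
      exact h1.symm)
    have h2 : Set.range (fun g => ρ c g (x0 c)) ⊆ Set.range φ := by
      rintro _ ⟨g, rfl⟩
      exact ⟨(g : G ⧸ Kc), rfl⟩
    have h3 : (Set.range φ).Infinite := (hinf c).mono h2
    rw [← not_finite_iff_infinite]
    intro hfin
    exact h3 (Set.finite_range φ)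
  · intro i u hu
    have hex : ∃ u : G, ρ (P i).1 u (x0 (P i).1) = (P i).2 := ⟨u, hu⟩
    simp only [dif_pos hex]
    change ρ (P i).1 (hex.choose⁻¹ * u) (x0 (P i).1) = x0 (P i).1
    rw [map_mul, Equiv.Perm.mul_apply, hu, map_inv, Equiv.Perm.inv_eq_iff_eq]
    exact hex.choose_spec.symm

/-- The path over a macro point lies in one orbit. -/
theorem path_mem {G : Type*} [Group G] (e : ℕ) (ρ : G →* Equiv.Perm (ℕ × ℕ)) (p0 : ℕ × ℕ)
    (t b : G) (st sb : Equiv.Perm ℕ) (ht : ρ t = tP e st) (hb : ρ b = bP e sb) (x : ℕ)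
    (i : ℕ) (hi : i ≤ 2 * e) :
    (x, i) ∈ Set.range (fun g => ρ g p0) ↔ (x, 0) ∈ Set.range (fun g => ρ g p0) := by
  have key : ∀ (g : G) (p : ℕ × ℕ), ρ g p ∈ Set.range (fun g => ρ g p0) ↔
      p ∈ Set.range (fun g => ρ g p0) := by
    intro g p
    constructor
    · rintro ⟨h, hh⟩
      refine ⟨g⁻¹ * h, ?_⟩
      simp only at hh ⊢
      rw [map_mul, Equiv.Perm.mul_apply, hh, map_inv, Equiv.Perm.inv_eq_iff_eq]
    · rintro ⟨h, rfl⟩
      exact ⟨g * h, by simp⟩
  induction i with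
  | zero => exact Iff.rfl
  | succ i ih =>
    have ih' := ih (by omega)
    refine Iff.trans ?_ ih'
    rcases Nat.mod_two_eq_zero_or_one i with h | h
    · have h2 : ρ b (x, i) = (x, i + 1) := by
        rw [hb, bP_apply, bm_even _ e x i h (by omega)]
      rw [← h2, key]
    · have h2 : ρ t (x, i) = (x, i + 1) := by
        rw [ht, tP_apply, tm_odd _ e x i h (by omega)]
      rw [← h2, key]

/-- The macro points whose paths lie in the orbit form an invariant set. -/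
theorem orbit_t {G : Type*} [Group G] (e : ℕ) (ρ : G →* Equiv.Perm (ℕ × ℕ)) (p0 : ℕ × ℕ)
    (t : G) (st : Equiv.Perm ℕ) (ht : ρ t = tP e st) (x : ℕ)
    (h : (x, 0) ∈ Set.range (fun g => ρ g p0)) : (st x, 0) ∈ Set.range (fun g => ρ g p0) := by
  obtain ⟨g, hg⟩ := h
  refine ⟨t * g, ?_⟩
  simp only at hg ⊢
  rw [map_mul, Equiv.Perm.mul_apply, hg, ht, tP_apply, tm_zero]

theorem orbit_b {G : Type*} [Group G] (e : ℕ) (ρ : G →* Equiv.Perm (ℕ × ℕ)) (p0 : ℕ × ℕ)
    (t b : G) (st sb : Equiv.Perm ℕ) (ht : ρ t = tP e st) (hb : ρ b = bP e sb) (x : ℕ)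
    (h : (x, 0) ∈ Set.range (fun g => ρ g p0)) : (sb x, 0) ∈ Set.range (fun g => ρ g p0) := by
  rw [← path_mem e ρ p0 t b st sb ht hb x (2 * e) le_rfl] at h
  rw [← path_mem e ρ p0 t b st sb ht hb (sb x) (2 * e) le_rfl]
  obtain ⟨g, hg⟩ := h
  refine ⟨b * g, ?_⟩
  simp only at hg ⊢
  rw [map_mul, Equiv.Perm.mul_apply, hg, hb, bP_apply, bm_end]

end Pool.Agent.H12.Cov
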