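import Mathlib
import Pool.Agent.H12.Cov.Scale

/-!
Covers of balls by cosets: the macroscopic example.

Four actions of `Z₂ * V₄` on `ℕ`, the points `0, …, 5` and an infinite ray starting at `6`; six
targets cover all states reached within macro time `6`.
-/

set_option autoImplicit false

namespace Pool.Agent.H12.Cov

/-- Involution of the first factor: a table on `0, …, 5`, the exit point `ex` joined to `6`, and
the pairs `7, 8`, then `9, 10`, and so on. -/
def tf (tab : List ℕ) (ex x : ℕ) : ℕ :=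
  if x < 6 then tab.getD x 0 else if x = 6 then ex else if x % 2 = 1 then x + 1 else x - 1

/-- Involution of the second factor: a table on `0, …, 5` and the pairs `6, 7`, then `8, 9`, and
so on. -/
def bf (tab : List ℕ) (x : ℕ) : ℕ :=
  if x < 6 then tab.getD x 0 else if x % 2 = 0 then x + 1 else x - 1

theorem tf_tf (tab : List ℕ) (ex : ℕ) (h : ∀ x < 7, tf tab ex (tf tab ex x) = x) (x : ℕ) :
    tf tab ex (tf tab ex x) = x := by
  by_cases h1 : x < 7
  · exact h x h1
  · rcases Nat.mod_two_eq_zero_or_one x with h2 | h2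
    · have h3 : tf tab ex x = x - 1 := by
        simp only [tf]
        rw [if_neg (by omega), if_neg (by omega), if_neg (by omega)]
      rw [h3]
      simp only [tf]
      rw [if_neg (by omega), if_neg (by omega), if_pos (by omega)]
      omega
    · have h3 : tf tab ex x = x + 1 := by
        simp only [tf]
        rw [if_neg (by omega), if_neg (by omega), if_pos (by omega)]
      rw [h3]
      simp only [tf]
      rw [if_neg (by omega), if_neg (by omega), if_neg (by omega)]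
      omega

theorem bf_bf (tab : List ℕ) (h : ∀ x < 6, bf tab (bf tab x) = x) (x : ℕ) :
    bf tab (bf tab x) = x := by
  by_cases h1 : x < 6
  · exact h x h1
  · rcases Nat.mod_two_eq_zero_or_one x with h2 | h2
    · have h3 : bf tab x = x + 1 := by
        simp only [bf]
        rw [if_neg (by omega), if_pos (by omega)]
      rw [h3]
      simp only [bf]
      rw [if_neg (by omega), if_neg (by omega)]
      omega
    · have h3 : bf tab x = x - 1 := by
        simp only [bf]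
        rw [if_neg (by omega), if_neg (by omega)]
      rw [h3]
      simp only [bf]
      rw [if_neg (by omega), if_pos (by omega)]
      omega

theorem bf_big (tab : List ℕ) (x : ℕ) (h : ¬ x < 6) :
    bf tab x = if x % 2 = 0 then x + 1 else x - 1 := by
  simp only [bf]
  rw [if_neg h]

theorem bf_comm (tab tab' : List ℕ) (h : ∀ x < 6, bf tab (bf tab' x) = bf tab' (bf tab x))
    (x : ℕ) : bf tab (bf tab' x) = bf tab' (bf tab x) := by
  by_cases h1 : x < 6
  · exact h x h1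
  · have h2 : bf tab x = bf tab' x := by
      rw [bf_big _ _ h1, bf_big _ _ h1]
    have h3 : ¬ bf tab x < 6 := by
      rw [bf_big _ _ h1]
      split_ifs <;> omega
    rw [← h2, bf_big tab _ h3, bf_big tab' _ h3]

/-- Tables of the involution `t` in the four classes. -/
def tT (c : Fin 4) : List ℕ :=
  match c with
  | 0 => [5, 1, 6, 4, 3, 0]
  | 1 => [1, 0, 2, 6, 5, 4]
  | 2 => [2, 6, 0, 4, 3, 5]
  | 3 => [5, 3, 6, 1, 4, 0]

/-- Exits of the four classes. -/
def tE (c : Fin 4) : ℕ :=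
  match c with
  | 0 => 2
  | 1 => 3
  | 2 => 1
  | 3 => 2

/-- Tables of the involution `b` in the four classes. -/
def bT (c : Fin 4) : List ℕ :=
  match c with
  | 0 => [0, 5, 4, 3, 2, 1]
  | 1 => [0, 5, 2, 4, 3, 1]
  | 2 => [0, 2, 1, 5, 4, 3]
  | 3 => [0, 1, 4, 5, 2, 3]

/-- Tables of the involution `c` in the four classes. -/
def cT (c : Fin 4) : List ℕ :=
  match c with
  | 0 => [0, 2, 1, 3, 5, 4]
  | 1 => [0, 5, 2, 3, 4, 1]
  | 2 => [0, 3, 5, 1, 4, 2]
  | 3 => [0, 1, 3, 2, 5, 4]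

theorem tT_ok : ∀ c : Fin 4, ∀ x < 7, tf (tT c) (tE c) (tf (tT c) (tE c) x) = x := by decide

theorem bT_ok : ∀ c : Fin 4, ∀ x < 6, bf (bT c) (bf (bT c) x) = x := by decide

theorem cT_ok : ∀ c : Fin 4, ∀ x < 6, bf (cT c) (bf (cT c) x) = x := by decide

theorem bc_ok : ∀ c : Fin 4, ∀ x < 6, bf (bT c) (bf (cT c) x) = bf (cT c) (bf (bT c) x) := by
  decide

/-- Action of `t` in class `c`. -/
def ts (c : Fin 4) : Equiv.Perm ℕ :=
  Function.Involutive.toPerm (tf (tT c) (tE c)) (tf_tf _ _ (tT_ok c))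

/-- Action of `b` in class `c`. -/
def bs (c : Fin 4) : Equiv.Perm ℕ :=
  Function.Involutive.toPerm (bf (bT c)) (bf_bf _ (bT_ok c))

/-- Action of `c` in class `c`. -/
def cs (c : Fin 4) : Equiv.Perm ℕ :=
  Function.Involutive.toPerm (bf (cT c)) (bf_bf _ (cT_ok c))

theorem ts_apply (c : Fin 4) (x : ℕ) : ts c x = tf (tT c) (tE c) x := rfl

theorem bs_apply (c : Fin 4) (x : ℕ) : bs c x = bf (bT c) x := rfl

theorem cs_apply (c : Fin 4) (x : ℕ) : cs c x = bf (cT c) x := rfl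

theorem ts_ts (c : Fin 4) (x : ℕ) : ts c (ts c x) = x := tf_tf _ _ (tT_ok c) x

theorem bs_bs (c : Fin 4) (x : ℕ) : bs c (bs c x) = x := bf_bf _ (bT_ok c) x

theorem cs_cs (c : Fin 4) (x : ℕ) : cs c (cs c x) = x := bf_bf _ (cT_ok c) x

theorem bs_cs (c : Fin 4) (x : ℕ) : bs c (cs c x) = cs c (bs c x) := bf_comm _ _ (bc_ok c) x

theorem ts_inv (c : Fin 4) : (ts c)⁻¹ = ts c := by
  ext x
  rw [Equiv.Perm.inv_eq_iff_eq, ts_ts]

theorem bs_inv (c : Fin 4) : (bs c)⁻¹ = bs c := by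
  ext x
  rw [Equiv.Perm.inv_eq_iff_eq, bs_bs]

theorem cs_inv (c : Fin 4) : (cs c)⁻¹ = cs c := by
  ext x
  rw [Equiv.Perm.inv_eq_iff_eq, cs_cs]

/-- Joint states as quadruples. -/
abbrev Q := ℕ × ℕ × ℕ × ℕ

/-- A permutation of each component. -/
def mp (s : Fin 4 → ℕ → ℕ) (X : Q) : Q := (s 0 X.1, s 1 X.2.1, s 2 X.2.2.1, s 3 X.2.2.2)

/-- The joint action of `t`, `b`, `c`. -/
def tq : Q → Q := mp fun c => tf (tT c) (tE c)
def bq : Q → Q := mp fun c => bf (bT c)
def cq : Q → Q := mp fun c => bf (cT c)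

/-- The joint states at macro time `m`. -/
def LL : ℕ → List Q
  | 0 => [(0, 0, 0, 0)]
  | m + 1 => if m % 2 = 0 then (LL m).map tq
      else (LL m).flatMap fun X => [X, bq X, cq X, bq (cq X)]

/-- The six targets cover a joint state. -/
def covq (X : Q) : Bool :=
  X.1 == 0 || X.1 == 3 || X.2.1 == 1 || X.2.1 == 5 || X.2.2.1 == 4 || X.2.2.2 == 1

theorem check : ∀ m < 7, (LL m).all covq = true := by decide

theorem tq_tq (X : Q) : tq (tq X) = X := by
  simp only [tq, mp]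
  rw [tf_tf _ _ (tT_ok 0), tf_tf _ _ (tT_ok 1), tf_tf _ _ (tT_ok 2), tf_tf _ _ (tT_ok 3)]

theorem bq_bq (X : Q) : bq (bq X) = X := by
  simp only [bq, mp]
  rw [bf_bf _ (bT_ok 0), bf_bf _ (bT_ok 1), bf_bf _ (bT_ok 2), bf_bf _ (bT_ok 3)]

theorem cq_cq (X : Q) : cq (cq X) = X := by
  simp only [cq, mp]
  rw [bf_bf _ (cT_ok 0), bf_bf _ (cT_ok 1), bf_bf _ (cT_ok 2), bf_bf _ (cT_ok 3)]

theorem bq_cq (X : Q) : bq (cq X) = cq (bq X) := by
  simp only [bq, cq, mp]
  rw [bf_comm _ _ (bc_ok 0), bf_comm _ _ (bc_ok 1), bf_comm _ _ (bc_ok 2), bf_comm _ _ (bc_ok 3)]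

theorem LL_zero : LL 0 = [(0, 0, 0, 0)] := rfl

theorem LL_odd (m : ℕ) (h : m % 2 = 0) : LL (m + 1) = (LL m).map tq := by
  rw [LL, if_pos h]

theorem LL_even (m : ℕ) (h : m % 2 = 1) :
    LL (m + 1) = (LL m).flatMap fun X => [X, bq X, cq X, bq (cq X)] := by
  rw [LL, if_neg (by omega)]

theorem t_even (m : ℕ) (X : Q) (h : m % 2 = 0) (hX : X ∈ LL m) : tq X ∈ LL (m + 1) := by
  rw [LL_odd m h]
  exact List.mem_map_of_mem hX

theorem t_odd (m : ℕ) (X : Q) (h : m % 2 = 1) (hX : X ∈ LL m) : tq X ∈ LL (m - 1) := by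
  obtain ⟨q, rfl⟩ : ∃ q, m = q + 1 := ⟨m - 1, by omega⟩
  rw [LL_odd q (by omega), List.mem_map] at hX
  obtain ⟨Y, hY, rfl⟩ := hX
  rw [tq_tq, Nat.add_sub_cancel]
  exact hY

theorem b_odd (m : ℕ) (X : Q) (h : m % 2 = 1) (hX : X ∈ LL m) : bq X ∈ LL (m + 1) := by
  rw [LL_even m h, List.mem_flatMap]
  exact ⟨X, hX, by simp⟩

theorem c_odd (m : ℕ) (X : Q) (h : m % 2 = 1) (hX : X ∈ LL m) : cq X ∈ LL (m + 1) := by
  rw [LL_even m h, List.mem_flatMap]
  exact ⟨X, hX, by simp⟩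

theorem b_even (m : ℕ) (X : Q) (h : m % 2 = 0) (hX : X ∈ LL m) : bq X ∈ LL m := by
  rcases Nat.eq_zero_or_pos m with h0 | h0
  · subst h0
    rw [LL_zero, List.mem_singleton] at hX ⊢
    subst hX
    rfl
  · obtain ⟨q, rfl⟩ : ∃ q, m = q + 1 := ⟨m - 1, by omega⟩
    rw [LL_even q (by omega), List.mem_flatMap] at hX ⊢
    obtain ⟨Y, hY, hX⟩ := hX
    refine ⟨Y, hY, ?_⟩
    simp only [List.mem_cons, List.not_mem_nil, or_false] at hX ⊢
    rcases hX with rfl | rfl | rfl | rfl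
    · right; left; rfl
    · left; rw [bq_bq]
    · right; right; right; rfl
    · right; right; left; rw [bq_bq]

theorem c_even (m : ℕ) (X : Q) (h : m % 2 = 0) (hX : X ∈ LL m) : cq X ∈ LL m := by
  rcases Nat.eq_zero_or_pos m with h0 | h0
  · subst h0
    rw [LL_zero, List.mem_singleton] at hX ⊢
    subst hX
    rfl
  · obtain ⟨q, rfl⟩ : ∃ q, m = q + 1 := ⟨m - 1, by omega⟩
    rw [LL_even q (by omega), List.mem_flatMap] at hX ⊢
    obtain ⟨Y, hY, hX⟩ := hX
    refine ⟨Y, hY, ?_⟩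
    simp only [List.mem_cons, List.not_mem_nil, or_false] at hX ⊢
    rcases hX with rfl | rfl | rfl | rfl
    · right; right; left; rfl
    · right; right; right; rw [bq_cq]
    · left; rw [cq_cq]
    · right; left; rw [← bq_cq, cq_cq]

/-- The sets of joint states as functions. -/
def RR (m : ℕ) : Set (Fin 4 → ℕ) := {X | (X 0, X 1, X 2, X 3) ∈ LL m}

/-- The six targets. -/
def tgt : Fin 6 → Fin 4 × ℕ := ![(0, 0), (0, 3), (1, 1), (1, 5), (2, 4), (3, 1)]

theorem RR_cover (m : ℕ) (hm : m < 7) (X : Fin 4 → ℕ) (hX : X ∈ RR m) :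
    ∃ j, X (tgt j).1 = (tgt j).2 := by
  have h1 := check m hm
  rw [List.all_eq_true] at h1
  have h2 := h1 _ hX
  simp only [covq, Bool.or_eq_true, beq_iff_eq] at h2
  rcases h2 with ((((h2 | h2) | h2) | h2) | h2) | h2
  · exact ⟨0, h2⟩
  · exact ⟨1, h2⟩
  · exact ⟨2, h2⟩
  · exact ⟨3, h2⟩
  · exact ⟨4, h2⟩
  · exact ⟨5, h2⟩

/-- The exit ray: all points from `6` on are reached from `0`. -/
theorem ray (P : Fin 4 → ℕ → Prop) (h0 : ∀ c, P c 0) (ht : ∀ c x, P c x → P c (ts c x))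
    (hb : ∀ c x, P c x → P c (bs c x)) (hc : ∀ c x, P c x → P c (cs c x)) (c : Fin 4) (j : ℕ) :
    P c (6 + j) := by
  induction j with
  | zero =>
    fin_cases c
    · have h1 : P 0 5 := ht 0 0 (h0 0)
      have h2 : P 0 4 := hc 0 5 h1
      have h3 : P 0 2 := hb 0 4 h2
      exact ht 0 2 h3
    · have h1 : P 1 1 := ht 1 0 (h0 1)
      have h2 : P 1 5 := hb 1 1 h1
      have h3 : P 1 4 := ht 1 5 h2
      have h4 : P 1 3 := hb 1 4 h3
      exact ht 1 3 h4
    · have h1 : P 2 2 := ht 2 0 (h0 2)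
      have h2 : P 2 1 := hb 2 2 h1
      exact ht 2 1 h2
    · have h1 : P 3 5 := ht 3 0 (h0 3)
      have h2 : P 3 3 := hb 3 5 h1
      have h3 : P 3 2 := hc 3 3 h2
      exact ht 3 2 h3
  | succ j ih =>
    rcases Nat.mod_two_eq_zero_or_one j with h | h
    · have h1 := hb c _ ih
      rw [bs_apply, bf, if_neg (by omega), if_pos (by omega)] at h1
      exact h1
    · have h1 := ht c _ ih
      rw [ts_apply, tf, if_neg (by omega), if_neg (by omega), if_pos (by omega)] at h1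
      exact h1

end Pool.Agent.H12.Cov
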