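import Mathlib
import Pool.Agent.H12.Cov.Macro

/-!
Covers of balls by cosets: the cover of the ball of radius `7 d - 1` by `6 d` cosets, `d` odd.
-/

set_option autoImplicit false

namespace Pool.Agent.H12.Cov

/-- The group of order two. -/
abbrev C2 := Multiplicative (ZMod 2)

theorem C2_cases (z : C2) : z = 1 ∨ z = Multiplicative.ofAdd 1 := by
  revert z
  decide

/-- The homomorphism from the group of order two given by an involution. -/
def invol {P : Type*} [Group P] (s : P) (h : s * s = 1) : C2 →* P where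
  toFun z := if z = 1 then 1 else s
  map_one' := by simp
  map_mul' := by
    intro x y
    have h1 : (Multiplicative.ofAdd (1 : ZMod 2)) ≠ 1 := by decide
    have h2 : (Multiplicative.ofAdd (1 : ZMod 2)) * Multiplicative.ofAdd 1 = 1 := by decide
    rcases C2_cases x with rfl | rfl <;> rcases C2_cases y with rfl | rfl
    · simp
    · simp [h1]
    · simp [h1]
    · simp only [h2, if_true, if_neg h1, h]

theorem invol_gen {P : Type*} [Group P] (s : P) (h : s * s = 1) :
    invol s h (Multiplicative.ofAdd 1) = s := by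
  have h1 : (Multiplicative.ofAdd (1 : ZMod 2)) ≠ 1 := by decide
  change (if Multiplicative.ofAdd (1 : ZMod 2) = 1 then 1 else s) = s
  rw [if_neg h1]

theorem invol_one {P : Type*} [Group P] (s : P) (h : s * s = 1) : invol s h 1 = 1 :=
  map_one _

theorem tP_sq (e : ℕ) (c : Fin 4) : tP e (ts c) * tP e (ts c) = 1 := by
  ext1 p
  exact tm_tm _ _ (ts_ts c) e p

theorem bP_sq (e : ℕ) (c : Fin 4) : bP e (bs c) * bP e (bs c) = 1 := by
  ext1 p
  exact bm_bm _ _ (bs_bs c) e p

theorem cP_sq (e : ℕ) (c : Fin 4) : bP e (cs c) * bP e (cs c) = 1 := by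
  ext1 p
  exact bm_bm _ _ (cs_cs c) e p

theorem bc_commute (e : ℕ) (c : Fin 4) : Commute (bP e (bs c)) (bP e (cs c)) := by
  change bP e (bs c) * bP e (cs c) = bP e (cs c) * bP e (bs c)
  ext1 p
  rw [Equiv.Perm.mul_apply, Equiv.Perm.mul_apply, bP_apply, bP_apply, bP_apply, bP_apply,
    bm_bm_eq, bm_bm_eq]
  congr 1
  funext x
  exact bs_cs c x

/-- The action of the second factor. -/
def bHom (e : ℕ) (c : Fin 4) : C2 × C2 →* Equiv.Perm (ℕ × ℕ) :=
  MonoidHom.noncommCoprod (invol (bP e (bs c)) (bP_sq e c)) (invol (bP e (cs c)) (cP_sq e c))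
    (by
      intro y z
      rcases C2_cases y with rfl | rfl <;> rcases C2_cases z with rfl | rfl
      · rw [invol_one, invol_one]
        exact Commute.one_left _
      · rw [invol_one]
        exact Commute.one_left _
      · rw [invol_one (bP e (cs c))]
        exact Commute.one_right _
      · rw [invol_gen, invol_gen]
        exact bc_commute e c)

theorem bHom_apply (e : ℕ) (c : Fin 4) (y z : C2) : bHom e c (y, z) =
    invol (bP e (bs c)) (bP_sq e c) y * invol (bP e (cs c)) (cP_sq e c) z := rfl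

/-- The action of the free product `Z₂ * V₄`. -/
def act (e : ℕ) (c : Fin 4) : Monoid.Coprod C2 (C2 × C2) →* Equiv.Perm (ℕ × ℕ) :=
  Monoid.Coprod.lift (invol (tP e (ts c)) (tP_sq e c)) (bHom e c)

/-- The words that occur: letters whose image lies in one of the two factors. -/
theorem letters (e : ℕ) (y : Monoid.Coprod C2 (C2 × C2))
    (hy : y ∈ Set.range (Monoid.Coprod.inl : C2 →* Monoid.Coprod C2 (C2 × C2)) ∪
      Set.range (Monoid.Coprod.inr : C2 × C2 →* Monoid.Coprod C2 (C2 × C2))) :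
      (∃ s : Fin 4 → Equiv.Perm ℕ, (∀ c, act e c y = tP e (s c)) ∧
        (∀ m X, m % 2 = 0 → X ∈ RR m → (fun c => s c (X c)) ∈ RR (m + 1)) ∧
        (∀ m X, m % 2 = 1 → X ∈ RR m → (fun c => s c (X c)) ∈ RR (m - 1) ∨
          (fun c => s c (X c)) ∈ RR m)) ∨
      (∃ s : Fin 4 → Equiv.Perm ℕ, (∀ c, act e c y = bP e (s c)) ∧
        (∀ m X, m % 2 = 0 → X ∈ RR m → (fun c => s c (X c)) ∈ RR m) ∧
        (∀ m X, m % 2 = 1 → X ∈ RR m → (fun c => s c (X c)) ∈ RR (m + 1))) ∨
      (∃ s : Fin 4 → ℕ → ℕ, (∀ c p, act e c y p = nm (s c) e p) ∧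
        (∀ m X, m % 2 = 0 → X ∈ RR m → (fun c => s c (X c)) ∈ RR m) ∧
        (∀ m X, m % 2 = 1 → X ∈ RR m → (fun c => s c (X c)) ∈ RR (m + 1))) ∨
      (∀ c, act e c y = 1) := by
  rcases hy with ⟨z, rfl⟩ | ⟨⟨y, z⟩, rfl⟩
  · rcases C2_cases z with rfl | rfl
    · right; right; right
      intro c
      rw [map_one, map_one]
    · left
      refine ⟨ts, fun c => ?_, fun m X h hX => t_even m _ h hX,
        fun m X h hX => Or.inl (t_odd m _ h hX)⟩
      rw [act, Monoid.Coprod.lift_apply_inl, invol_gen]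
  · rcases C2_cases y with rfl | rfl <;> rcases C2_cases z with rfl | rfl
    · right; right; right
      intro c
      rw [act, Monoid.Coprod.lift_apply_inr, bHom_apply, invol_one, invol_one, one_mul]
    · right; left
      refine ⟨cs, fun c => ?_, fun m X h hX => c_even m _ h hX, fun m X h hX => c_odd m _ h hX⟩
      rw [act, Monoid.Coprod.lift_apply_inr, bHom_apply, invol_one, invol_gen, one_mul]
    · right; left
      refine ⟨bs, fun c => ?_, fun m X h hX => b_even m _ h hX, fun m X h hX => b_odd m _ h hX⟩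
      rw [act, Monoid.Coprod.lift_apply_inr, bHom_apply, invol_one (bP e (cs c)), invol_gen,
        mul_one]
    · right; right; left
      refine ⟨fun c x => bs c (cs c x), fun c p => ?_,
        fun m X h hX => b_even m _ h (c_even m _ h hX), fun m X h hX => ?_⟩
      · rw [act, Monoid.Coprod.lift_apply_inr, bHom_apply, invol_gen,
          invol_gen, Equiv.Perm.mul_apply, bP_apply, bP_apply, bm_bm_eq]
      · exact b_even (m + 1) _ (by omega) (c_odd m _ h hX)

/-- `N` cosets of four subgroups of infinite index cover the ball of radius `r`. -/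
def Covers (G : Type*) [Group G] (S : Set G) (r N : ℕ) : Prop :=
  ∃ (K : Fin 4 → Subgroup G) (c : Fin N → Fin 4) (g : Fin N → G),
    (∀ j, (K j).index = 0) ∧
    ∀ l : List G, l.length ≤ r → (∀ x ∈ l, x ∈ S ∨ x⁻¹ ∈ S) → ∃ i, (g i)⁻¹ * l.prod ∈ K (c i)

theorem cov_main {G : Type*} [Group G] (S : Set G) (φ : G →* Monoid.Coprod C2 (C2 × C2))
    (hφ : Function.Surjective φ)
    (hS : ∀ x ∈ S, φ x ∈ Set.range (Monoid.Coprod.inl : C2 →* Monoid.Coprod C2 (C2 × C2)) ∪
      Set.range (Monoid.Coprod.inr : C2 × C2 →* Monoid.Coprod C2 (C2 × C2)))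
    (e r : ℕ) (hr : r < 7 * (2 * e + 1)) : Covers G S r (6 * (2 * e + 1)) := by
  set ρ : Fin 4 → G →* Equiv.Perm (ℕ × ℕ) := fun c => (act e c).comp φ with hρ
  obtain ⟨ut, hut⟩ := hφ (Monoid.Coprod.inl (Multiplicative.ofAdd 1))
  obtain ⟨ub, hub⟩ := hφ (Monoid.Coprod.inr (Multiplicative.ofAdd 1, 1))
  obtain ⟨uc, huc⟩ := hφ (Monoid.Coprod.inr (1, Multiplicative.ofAdd 1))
  have h1 : ∀ c, ρ c ut = tP e (ts c) := by
    intro c
    rw [hρ]
    simp only [MonoidHom.comp_apply]
    rw [hut, act, Monoid.Coprod.lift_apply_inl, invol_gen]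
  have h2 : ∀ c, ρ c ub = bP e (bs c) := by
    intro c
    rw [hρ]
    simp only [MonoidHom.comp_apply]
    rw [hub, act, Monoid.Coprod.lift_apply_inr, bHom_apply, invol_one (bP e (cs c)), invol_gen,
      mul_one]
  have h3 : ∀ c, ρ c uc = bP e (cs c) := by
    intro c
    rw [hρ]
    simp only [MonoidHom.comp_apply]
    rw [huc, act, Monoid.Coprod.lift_apply_inr, bHom_apply, invol_one (bP e (bs c)), invol_gen,
      one_mul]
  have hinf : ∀ c, (Set.range fun g => ρ c g ((0, 2 * e) : ℕ × ℕ)).Infinite := by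
    intro c
    have h4 := ray (fun c x => (x, 0) ∈ Set.range fun g => ρ c g ((0, 2 * e) : ℕ × ℕ))
      (fun c => (path_mem e (ρ c) _ ut ub _ _ (h1 c) (h2 c) 0 (2 * e) le_rfl).1
        ⟨1, by simp⟩)
      (fun c x hx => orbit_t e (ρ c) _ ut _ (h1 c) x hx)
      (fun c x hx => orbit_b e (ρ c) _ ut ub _ _ (h1 c) (h2 c) x hx)
      (fun c x hx => orbit_b e (ρ c) _ ut uc _ _ (h1 c) (h3 c) x hx) c
    refine Set.infinite_of_injective_forall_mem (f := fun j : ℕ => ((6 + j, 0) : ℕ × ℕ)) ?_ h4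
    intro a b hab
    simp only [Prod.mk.injEq, and_true] at hab
    omega
  obtain ⟨K, g, hK, hg⟩ := cosets ρ (fun _ => ((0, 2 * e) : ℕ × ℕ)) hinf
    (fun i : Fin (6 * (2 * e + 1)) => ((tgt (finProdFinEquiv.symm i).1).1,
      ((tgt (finProdFinEquiv.symm i).1).2, ((finProdFinEquiv.symm i).2 : ℕ))))
  refine ⟨K, fun i => (tgt (finProdFinEquiv.symm i).1).1, g, hK, ?_⟩
  intro l hl hlS
  have h5 := inv_word e RR (fun _ => 0) (by simp [RR, LL]) ρ {x | φ x ∈ Set.range
      (Monoid.Coprod.inl : C2 →* Monoid.Coprod C2 (C2 × C2)) ∪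
      Set.range (Monoid.Coprod.inr : C2 × C2 →* Monoid.Coprod C2 (C2 × C2))}
      (fun x hx => letters e (φ x) hx) l (by
    intro x hx
    rcases hlS x hx with h | h
    · exact hS x h
    · have h6 := hS _ h
      rw [map_inv] at h6
      rcases h6 with ⟨z, hz⟩ | ⟨z, hz⟩
      · left
        exact ⟨z⁻¹, by rw [map_inv, hz, inv_inv]⟩
      · right
        exact ⟨z⁻¹, by rw [map_inv, hz, inv_inv]⟩)
  obtain ⟨j, i, hji⟩ := cover_word e 7 6 RR (fun _ => 0) ρ l h5 tgt
    (fun m hm X hX => RR_cover m hm X hX) (by omega)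
  refine ⟨finProdFinEquiv (j, i), ?_⟩
  have h7 := hg (finProdFinEquiv (j, i)) l.prod
  simp only [Equiv.symm_apply_apply] at h7 ⊢
  exact h7 hji

/-- The free group of rank at least three maps onto `Z₂ * V₄`. -/
theorem free_hom (k : ℕ) (hk : 3 ≤ k) : ∃ φ : FreeGroup (Fin k) →* Monoid.Coprod C2 (C2 × C2),
    Function.Surjective φ ∧ ∀ x ∈ Set.range (FreeGroup.of : Fin k → FreeGroup (Fin k)),
      φ x ∈ Set.range (Monoid.Coprod.inl : C2 →* Monoid.Coprod C2 (C2 × C2)) ∪
      Set.range (Monoid.Coprod.inr : C2 × C2 →* Monoid.Coprod C2 (C2 × C2)) := by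
  let f : Fin k → Monoid.Coprod C2 (C2 × C2) := fun j =>
    if (j : ℕ) = 0 then Monoid.Coprod.inl (Multiplicative.ofAdd 1)
    else if (j : ℕ) = 1 then Monoid.Coprod.inr (Multiplicative.ofAdd 1, 1)
    else if (j : ℕ) = 2 then Monoid.Coprod.inr (1, Multiplicative.ofAdd 1) else 1
  refine ⟨FreeGroup.lift f, ?_, ?_⟩
  · have h0 : FreeGroup.lift f (FreeGroup.of ⟨0, by omega⟩) =
        Monoid.Coprod.inl (Multiplicative.ofAdd 1) := by
      rw [FreeGroup.lift_apply_of]
      simp [f]
    have h1 : FreeGroup.lift f (FreeGroup.of ⟨1, by omega⟩) =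
        Monoid.Coprod.inr (Multiplicative.ofAdd 1, 1) := by
      rw [FreeGroup.lift_apply_of]
      simp [f]
    have h2 : FreeGroup.lift f (FreeGroup.of ⟨2, by omega⟩) =
        Monoid.Coprod.inr (1, Multiplicative.ofAdd 1) := by
      rw [FreeGroup.lift_apply_of]
      simp [f]
    rw [← MonoidHom.range_eq_top, eq_top_iff, ← Monoid.Coprod.range_inl_sup_range_inr, sup_le_iff]
    constructor
    · rintro _ ⟨z, rfl⟩
      rcases C2_cases z with rfl | rfl
      · rw [map_one]
        exact one_mem _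
      · exact ⟨_, h0⟩
    · rintro _ ⟨⟨y, z⟩, rfl⟩
      have h3 : ((y, z) : C2 × C2) = (y, 1) * (1, z) := by simp
      rw [h3, map_mul]
      refine mul_mem ?_ ?_
      · rcases C2_cases y with rfl | rfl
        · rw [← Prod.one_eq_mk, map_one]
          exact one_mem _
        · exact ⟨_, h1⟩
      · rcases C2_cases z with rfl | rfl
        · rw [← Prod.one_eq_mk, map_one]
          exact one_mem _
        · exact ⟨_, h2⟩
  · rintro _ ⟨j, rfl⟩
    rw [FreeGroup.lift_apply_of]
    simp only [f]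
    split_ifs
    · left; exact ⟨_, rfl⟩
    · right; exact ⟨_, rfl⟩
    · right; exact ⟨_, rfl⟩
    · left; exact ⟨1, map_one _⟩

end Pool.Agent.H12.Cov
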